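import Mathlib

/-!
# Finite cyclic models of a permutation near a finite set
-/

set_option autoImplicit false

namespace Pool.Agent.D0H55.GW

section cyc

variable {V : Type}

theorem zpow_add_apply (σ : Equiv.Perm V) (a b : ℤ) (v : V) :
    (σ ^ (a + b)) v = (σ ^ a) ((σ ^ b) v) := by
  rw [zpow_add, Equiv.Perm.mul_apply]

theorem fix_mul {σ : Equiv.Perm V} {v : V} {a : ℤ} (h : (σ ^ a) v = v) (k : ℤ) :
    (σ ^ (a * k)) v = v := by
  rw [zpow_mul]
  exact Equiv.Perm.zpow_apply_eq_self_of_apply_eq_self h k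

/-- a modulus for the finite set `F` -/
theorem exists_M (σ : Equiv.Perm V) {F : Set V} (hF : F.Finite) :
    ∃ M : ℕ, 0 < M ∧ ∀ v ∈ F, ∀ w ∈ F, ∀ a : ℤ, w = (σ ^ a) v →
      (σ ^ (M : ℤ)) v = v ∨ 2 * |a| < M := by
  classical
  have h1 : ∀ v : V, ∃ m : ℕ, 0 < m ∧ ((∃ k : ℕ, 0 < k ∧ (σ ^ (k : ℤ)) v = v) →
      (σ ^ (m : ℤ)) v = v) := by
    intro v
    by_cases h : ∃ k : ℕ, 0 < k ∧ (σ ^ (k : ℤ)) v = v
    · obtain ⟨k, hk, h2⟩ := h
      exact ⟨k, hk, fun _ => h2⟩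
    · exact ⟨1, one_pos, fun h2 => absurd h2 h⟩
  choose m hm0 hm using h1
  have h2 : ∀ v w : V, ∃ b : ℕ, (¬ ∃ k : ℕ, 0 < k ∧ (σ ^ (k : ℤ)) v = v) →
      ∀ a : ℤ, w = (σ ^ a) v → |a| ≤ b := by
    intro v w
    by_cases h : ∃ a : ℤ, w = (σ ^ a) v
    · obtain ⟨a, ha⟩ := h
      refine ⟨a.natAbs, fun hinf a' ha' => ?_⟩
      have h3 : (σ ^ (a' - a)) v = v := by
        have h4 : (σ ^ a) ((σ ^ (a' - a)) v) = (σ ^ a) v := by
          rw [← zpow_add_apply, ← ha]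
          have : a + (a' - a) = a' := by ring
          rw [this, ← ha']
        exact (σ ^ a).injective h4
      have h4 : a' = a := by
        by_contra hne
        apply hinf
        refine ⟨(a' - a).natAbs, Int.natAbs_pos.2 (sub_ne_zero.2 hne), ?_⟩
        rcases Int.natAbs_eq (a' - a) with h5 | h5
        · rw [← h5]
          exact h3
        · have h6 := fix_mul h3 (-1)
          have h7 : (a' - a) * (-1) = ((a' - a).natAbs : ℤ) := by
            rw [h5]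
            simp
          rw [h7] at h6
          exact h6
      rw [h4]
      exact (Int.abs_eq_natAbs a).le
    · exact ⟨0, fun _ a ha => absurd ⟨a, ha⟩ h⟩
  choose b hb using h2
  obtain ⟨D, hD⟩ : ∃ D : ℕ, D = ∏ v ∈ hF.toFinset, m v := ⟨_, rfl⟩
  obtain ⟨B, hBd⟩ : ∃ B : ℕ, B = ∑ v ∈ hF.toFinset, ∑ w ∈ hF.toFinset, b v w := ⟨_, rfl⟩
  have hD0 : 0 < D := hD ▸ Finset.prod_pos fun v _ => hm0 v
  refine ⟨D * (2 * B + 1), Nat.mul_pos hD0 (by omega), ?_⟩
  intro v hv w hw a ha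
  by_cases h : ∃ k : ℕ, 0 < k ∧ (σ ^ (k : ℤ)) v = v
  · left
    have h3 := hm v h
    obtain ⟨l, hl⟩ : m v ∣ D := hD ▸ Finset.dvd_prod_of_mem m (hF.mem_toFinset.2 hv)
    have h4 := fix_mul h3 (l * (2 * B + 1))
    have h5 : ((D * (2 * B + 1) : ℕ) : ℤ) = (m v : ℤ) * (l * (2 * B + 1)) := by
      rw [hl]
      push_cast
      ring
    rw [h5]
    exact h4
  · right
    have h3 := hb v w h a ha
    have h4 : b v w ≤ B := by
      rw [hBd]
      refine le_trans ?_ (Finset.single_le_sum (f := fun v => ∑ w ∈ hF.toFinset, b v w)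
        (fun _ _ => Nat.zero_le _) (hF.mem_toFinset.2 hv))
      exact Finset.single_le_sum (f := fun w => b v w) (fun _ _ => Nat.zero_le _)
        (hF.mem_toFinset.2 hw)
    have h5 : (b v w : ℤ) ≤ B := by exact_mod_cast h4
    have h6 : 2 * B + 1 ≤ D * (2 * B + 1) := Nat.le_mul_of_pos_left _ hD0
    have h7 : ((2 * B + 1 : ℕ) : ℤ) ≤ ((D * (2 * B + 1) : ℕ) : ℤ) := by exact_mod_cast h6
    push_cast at h7 ⊢
    omega

/-- points in the same orbit of `σ ^ M` -/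
def sq (σ : Equiv.Perm V) (M : ℕ) : Setoid V where
  r v w := ∃ k : ℤ, w = (σ ^ ((M : ℤ) * k)) v
  iseqv :=
    { refl := fun v => ⟨0, by simp⟩
      symm := by
        rintro v _ ⟨i, rfl⟩
        refine ⟨-i, ?_⟩
        rw [← zpow_add_apply]
        simp
      trans := by
        rintro v _ _ ⟨i, rfl⟩ ⟨j, rfl⟩
        refine ⟨j + i, ?_⟩
        rw [← zpow_add_apply, mul_add] }

/-- the quotient -/
abbrev Vq (σ : Equiv.Perm V) (M : ℕ) : Type := Quotient (sq σ M)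

/-- the projection -/
def pq (σ : Equiv.Perm V) (M : ℕ) (v : V) : Vq σ M := Quotient.mk (sq σ M) v

theorem pq_eq {σ : Equiv.Perm V} {M : ℕ} {v w : V} :
    pq σ M v = pq σ M w ↔ ∃ k : ℤ, w = (σ ^ ((M : ℤ) * k)) v := Quotient.eq (r := sq σ M)

theorem pq_zpow {σ : Equiv.Perm V} {M : ℕ} {v w : V} (a : ℤ) :
    pq σ M ((σ ^ a) v) = pq σ M ((σ ^ a) w) ↔ pq σ M v = pq σ M w := by
  rw [pq_eq, pq_eq]
  have h : ∀ k : ℤ, (σ ^ ((M : ℤ) * k)) ((σ ^ a) v) = (σ ^ a) ((σ ^ ((M : ℤ) * k)) v) := by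
    intro k
    rw [← zpow_add_apply, ← zpow_add_apply, add_comm]
  constructor
  · rintro ⟨k, hk⟩
    rw [h] at hk
    exact ⟨k, (σ ^ a).injective hk⟩
  · rintro ⟨k, hk⟩
    exact ⟨k, by rw [h, hk]⟩

/-- the permutation of the quotient -/
def tq (σ : Equiv.Perm V) (M : ℕ) : Equiv.Perm (Vq σ M) where
  toFun := Quotient.map' σ (by
    rintro v _ ⟨k, rfl⟩
    refine ⟨k, ?_⟩
    have h1 := zpow_add_apply σ 1 ((M : ℤ) * k) v
    have h2 := zpow_add_apply σ ((M : ℤ) * k) 1 v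
    rw [zpow_one] at h1 h2
    rw [← h1, ← h2, add_comm])
  invFun := Quotient.map' σ.symm (by
    rintro v _ ⟨k, rfl⟩
    refine ⟨k, ?_⟩
    have h1 := zpow_add_apply σ (-1) ((M : ℤ) * k) v
    have h2 := zpow_add_apply σ ((M : ℤ) * k) (-1) v
    have h3 : ∀ w, (σ ^ (-1 : ℤ)) w = σ.symm w := fun w => by rw [zpow_neg_one]; rfl
    rw [h3] at h1 h2
    rw [← h1, ← h2, add_comm])
  left_inv := by
    intro x
    induction x using Quotient.inductionOn' with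
    | h v =>
      show pq σ M (σ.symm (σ v)) = pq σ M v
      rw [σ.symm_apply_apply]
  right_inv := by
    intro x
    induction x using Quotient.inductionOn' with
    | h v =>
      show pq σ M (σ (σ.symm v)) = pq σ M v
      rw [σ.apply_symm_apply]

theorem tq_pq (σ : Equiv.Perm V) (M : ℕ) (v : V) : tq σ M (pq σ M v) = pq σ M (σ v) := rfl

theorem tq_zpow (σ : Equiv.Perm V) (M : ℕ) (a : ℤ) (v : V) :
    ((tq σ M) ^ a) (pq σ M v) = pq σ M ((σ ^ a) v) := by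
  induction a using Int.induction_on generalizing v with
  | zero => simp
  | succ i ih =>
    rw [zpow_add_apply, zpow_add_apply, zpow_one, zpow_one, tq_pq, ih]
  | pred i ih =>
    have h1 : ((tq σ M) ^ (-1 : ℤ)) (pq σ M v) = pq σ M ((σ ^ (-1 : ℤ)) v) := by
      rw [zpow_neg_one, zpow_neg_one]
      rfl
    rw [sub_eq_add_neg, zpow_add_apply, zpow_add_apply, h1, ih]

theorem tq_M (σ : Equiv.Perm V) (M : ℕ) : (tq σ M) ^ M = 1 := by
  ext x
  induction x using Quotient.inductionOn' with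
  | h v =>
    show ((tq σ M) ^ M) (pq σ M v) = pq σ M v
    rw [← zpow_natCast, tq_zpow, pq_eq]
    refine ⟨-1, ?_⟩
    rw [← zpow_add_apply]
    simp

/-- the edges between points of `F`, and their images -/
def Lq (σ : Equiv.Perm V) (M : ℕ) (Λ : SimpleGraph V) (F : Set V)
    (hinj : ∀ v ∈ F, ∀ w ∈ F, pq σ M v = pq σ M w → v = w) : SimpleGraph (Vq σ M) where
  Adj x y := ∃ i : ℤ, ∃ v ∈ F, ∃ w ∈ F, Λ.Adj v w ∧ x = pq σ M ((σ ^ i) v) ∧
    y = pq σ M ((σ ^ i) w)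
  symm := ⟨by
    rintro x y ⟨i, v, hv, w, hw, h, h1, h2⟩
    exact ⟨i, w, hw, v, hv, h.symm, h2, h1⟩⟩
  loopless := ⟨by
    rintro x ⟨i, v, hv, w, hw, h, h1, h2⟩
    rw [h1, pq_zpow] at h2
    exact h.ne (hinj v hv w hw h2)⟩

end cyc

end Pool.Agent.D0H55.GW
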