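import Pool.Agent.D0H25.GK.General

/-!
# External graph products of subgroups of a group, and their mapping tori
-/

set_option autoImplicit false

namespace Pool.Agent.D0H55.GW

open Monoid Pool.Agent.D0H25.GK
open Pool.Agent.Y110.FJ
open Pool.Agent.R941.FJ (C_equiv C_le C_cyc mem_sup_normal)
open Pool.Agent.Y462.SS (Closed)
open Pool.Agent.R684.FP (FbC cyc_real)

section ext

variable {G V : Type} [Group G] (Λ : SimpleGraph V) (A : V → Subgroup G)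

/-- the (external) graph product of the subgroups `A v` -/
abbrev EG : Type := CoprodI (fun v => A v) ⧸ Subgroup.normalClosure (rel Λ A)

/-- the vertex groups in the graph product -/
def jj (v : V) : A v →* EG Λ A :=
  (QuotientGroup.mk' (Subgroup.normalClosure (rel Λ A))).comp
    (CoprodI.of (M := fun v => A v) (i := v))

variable {Λ A}

theorem jj_congr {v w : V} (h : v = w) {x y : G} (hx : x ∈ A v) (hy : y ∈ A w) (hxy : x = y) :
    jj Λ A v ⟨x, hx⟩ = jj Λ A w ⟨y, hy⟩ := by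
  subst h
  subst hxy
  rfl

theorem jj_comm {v w : V} (h : Λ.Adj v w) (a : A v) (b : A w) :
    jj Λ A v a * jj Λ A w b = jj Λ A w b * jj Λ A v a := by
  have h1 : (CoprodI.of (M := fun v => A v) (i := v) a) *
      (CoprodI.of (M := fun v => A v) (i := w) b) *
      (CoprodI.of (M := fun v => A v) (i := v) a)⁻¹ *
      (CoprodI.of (M := fun v => A v) (i := w) b)⁻¹ ∈ Subgroup.normalClosure (rel Λ A) :=
    Subgroup.subset_normalClosure ⟨v, w, a, b, h, rfl⟩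
  have h2 := (QuotientGroup.eq_one_iff _).2 h1
  rw [QuotientGroup.mk_mul, QuotientGroup.mk_mul, QuotientGroup.mk_mul, QuotientGroup.mk_inv,
    QuotientGroup.mk_inv] at h2
  show (_ : CoprodI (fun v => A v) ⧸ Subgroup.normalClosure (rel Λ A)) = _
  exact (mul_inv_eq_iff_eq_mul.1 (mul_inv_eq_one.1 h2))

theorem exists_lift {H : Type} [Group H] (φ : ∀ v, A v →* H)
    (hφ : ∀ v w, Λ.Adj v w → ∀ (a : A v) (b : A w), φ v a * φ w b = φ w b * φ v a) :
    ∃ Φ : EG Λ A →* H, ∀ v a, Φ (jj Λ A v a) = φ v a := by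
  refine ⟨QuotientGroup.lift (Subgroup.normalClosure (rel Λ A)) (CoprodI.lift φ) ?_, ?_⟩
  · have hk : Subgroup.normalClosure (rel Λ A) ≤ (CoprodI.lift φ).ker := by
      refine Subgroup.normalClosure_le_normal ?_
      rintro _ ⟨v, w, a, b, hvw, rfl⟩
      rw [SetLike.mem_coe, MonoidHom.mem_ker, map_mul, map_mul, map_mul, map_inv, map_inv,
        CoprodI.lift_of, CoprodI.lift_of, hφ v w hvw a b]
      group
    intro x hx
    exact hk hx
  · intro v a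
    show QuotientGroup.lift (Subgroup.normalClosure (rel Λ A)) (CoprodI.lift φ) _
      (QuotientGroup.mk _) = _
    rw [QuotientGroup.lift_mk, CoprodI.lift_of]

theorem EG_ext {H : Type} [Group H] {f g : EG Λ A →* H}
    (h : ∀ v a, f (jj Λ A v a) = g (jj Λ A v a)) : f = g := by
  apply QuotientGroup.monoidHom_ext
  apply CoprodI.ext_hom
  intro v
  ext a
  exact h v a

theorem jj_inj (v : V) : Function.Injective (jj Λ A v) := by
  classical
  obtain ⟨Φ, hΦ⟩ := exists_lift (Λ := Λ) (A := A) (H := G)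
    (fun w => if w = v then (A w).subtype else 1) (by
      intro w u hwu a b
      by_cases hw : w = v
      · have hu : u ≠ v := fun hu => by
          subst hw
          exact hwu.ne hu.symm
        rw [if_neg hu, MonoidHom.one_apply, one_mul, mul_one]
      · rw [if_neg hw, MonoidHom.one_apply, one_mul, mul_one])
  intro a b hab
  have h1 := hΦ v a
  have h2 := hΦ v b
  rw [if_pos rfl] at h1 h2
  apply Subtype.ext
  have h3 : ((A v).subtype a : G) = (A v).subtype b := by rw [← h1, ← h2, hab]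
  exact h3

/-- the automorphism of the graph product given by a permutation of the vertices and
isomorphisms of the vertex groups -/
theorem exists_aut (τ : Equiv.Perm V) (hτ : ∀ v w, Λ.Adj (τ v) (τ w) ↔ Λ.Adj v w) (c : V → G)
    (hc : ∀ v x, x ∈ A v ↔ c v * x * (c v)⁻¹ ∈ A (τ v)) :
    ∃ θ : MulAut (EG Λ A), ∀ v (a : A v),
      θ (jj Λ A v a) = jj Λ A (τ v) ⟨c v * a * (c v)⁻¹, (hc v a).1 a.2⟩ := by
  have hc' : ∀ v (x : A v), (c (τ.symm v))⁻¹ * (x : G) * c (τ.symm v) ∈ A (τ.symm v) := by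
    intro v x
    rw [hc (τ.symm v), τ.apply_symm_apply]
    have : c (τ.symm v) * ((c (τ.symm v))⁻¹ * (x : G) * c (τ.symm v)) * (c (τ.symm v))⁻¹ = x := by
      group
    rw [this]
    exact x.2
  let f1 : ∀ v, A v →* EG Λ A := fun v => (jj Λ A (τ v)).comp
    { toFun := fun a => ⟨c v * a * (c v)⁻¹, (hc v a).1 a.2⟩
      map_one' := Subtype.ext (by simp)
      map_mul' := fun a b => Subtype.ext (by
        show c v * ((a : G) * b) * (c v)⁻¹ = (c v * a * (c v)⁻¹) * (c v * b * (c v)⁻¹)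
        group) }
  let f2 : ∀ v, A v →* EG Λ A := fun v => (jj Λ A (τ.symm v)).comp
    { toFun := fun a => ⟨(c (τ.symm v))⁻¹ * a * c (τ.symm v), hc' v a⟩
      map_one' := Subtype.ext (by simp)
      map_mul' := fun a b => Subtype.ext (by
        show (c (τ.symm v))⁻¹ * ((a : G) * b) * c (τ.symm v) =
          ((c (τ.symm v))⁻¹ * a * c (τ.symm v)) * ((c (τ.symm v))⁻¹ * b * c (τ.symm v))
        group) }
  have hf1 : ∀ v (a : A v), f1 v a = jj Λ A (τ v) ⟨c v * a * (c v)⁻¹, (hc v a).1 a.2⟩ :=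
    fun v a => rfl
  have hf2 : ∀ v (a : A v), f2 v a = jj Λ A (τ.symm v)
      ⟨(c (τ.symm v))⁻¹ * a * c (τ.symm v), hc' v a⟩ := fun v a => rfl
  obtain ⟨Φ, hΦ⟩ := exists_lift (Λ := Λ) f1 (by
    intro v w hvw a b
    rw [hf1, hf1]
    exact jj_comm ((hτ v w).2 hvw) _ _)
  obtain ⟨Ψ, hΨ⟩ := exists_lift (Λ := Λ) f2 (by
    intro v w hvw a b
    rw [hf2, hf2]
    refine jj_comm ?_ _ _
    rw [← hτ, τ.apply_symm_apply, τ.apply_symm_apply]
    exact hvw)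
  have h1 : Ψ.comp Φ = MonoidHom.id _ := by
    apply EG_ext
    intro v a
    rw [MonoidHom.comp_apply, hΦ, hf1, hΨ, hf2, MonoidHom.id_apply]
    refine jj_congr (τ.symm_apply_apply v) _ a.2 ?_
    rw [τ.symm_apply_apply]
    show (c v)⁻¹ * (c v * (a : G) * (c v)⁻¹) * c v = a
    group
  have h2 : Φ.comp Ψ = MonoidHom.id _ := by
    apply EG_ext
    intro v a
    rw [MonoidHom.comp_apply, hΨ, hf2, hΦ, hf1, MonoidHom.id_apply]
    refine jj_congr (τ.apply_symm_apply v) _ a.2 ?_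
    show c (τ.symm v) * ((c (τ.symm v))⁻¹ * (a : G) * c (τ.symm v)) * (c (τ.symm v))⁻¹ = a
    group
  refine ⟨MonoidHom.toMulEquiv Φ Ψ h1 h2, ?_⟩
  intro v a
  exact hΦ v a

/-- automorphisms which permute the vertex groups and are induced by conjugations of `G` -/
def Cact (Λ : SimpleGraph V) (A : V → Subgroup G) : Subgroup (MulAut (EG Λ A) × Equiv.Perm V) where
  carrier := {p | ∀ v, ∃ c : G, (∀ x, x ∈ A v ↔ c * x * c⁻¹ ∈ A (p.2 v)) ∧
    ∀ (x : G) (hx : x ∈ A v) (hx' : c * x * c⁻¹ ∈ A (p.2 v)),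
      p.1 (jj Λ A v ⟨x, hx⟩) = jj Λ A (p.2 v) ⟨c * x * c⁻¹, hx'⟩}
  one_mem' := by
    intro v
    refine ⟨1, fun x => ?_, fun x hx hx' => ?_⟩
    · rw [one_mul, inv_one, mul_one]
      rfl
    · exact jj_congr rfl hx hx' (by simp)
  mul_mem' := by
    rintro ⟨p, σ⟩ ⟨q, τ⟩ h1 h2 v
    obtain ⟨c, h3, h4⟩ := h2 v
    obtain ⟨d, h5, h6⟩ := h1 (τ v)
    have e : ∀ x : G, d * (c * x * c⁻¹) * d⁻¹ = (d * c) * x * (d * c)⁻¹ := fun x => by group
    refine ⟨d * c, fun x => ?_, fun x hx hx' => ?_⟩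
    · rw [h3 x]
      refine (h5 _).trans ?_
      rw [e]
      rfl
    · have h7 := (h3 x).1 hx
      have h8 : d * (c * x * c⁻¹) * d⁻¹ ∈ A (σ (τ v)) := (h5 _).1 h7
      show p (q (jj Λ A v ⟨x, hx⟩)) = _
      have h9 : q (jj Λ A v ⟨x, hx⟩) = jj Λ A (τ v) ⟨c * x * c⁻¹, h7⟩ := h4 x hx h7
      rw [h9]
      have h10 : p (jj Λ A (τ v) ⟨c * x * c⁻¹, h7⟩) = jj Λ A (σ (τ v)) ⟨_, h8⟩ := h6 _ h7 h8
      rw [h10]
      exact jj_congr rfl _ _ (e x)
  inv_mem' := by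
    rintro ⟨p, σ⟩ h1 v
    obtain ⟨c, h3, h4⟩ := h1 (σ⁻¹ v)
    have hv : σ (σ⁻¹ v) = v := σ.apply_symm_apply v
    have h3' : ∀ x, x ∈ A (σ⁻¹ v) ↔ c * x * c⁻¹ ∈ A v := fun x => by
      rw [h3 x]
      show _ ∈ A (σ (σ⁻¹ v)) ↔ _
      rw [hv]
    refine ⟨c⁻¹, fun x => ?_, fun x hx hx' => ?_⟩
    · show _ ↔ c⁻¹ * x * c⁻¹⁻¹ ∈ A (σ⁻¹ v)
      rw [h3']
      have : c * (c⁻¹ * x * c⁻¹⁻¹) * c⁻¹ = x := by group
      rw [this]
    · show p⁻¹ (jj Λ A v ⟨x, hx⟩) = jj Λ A (σ⁻¹ v) ⟨c⁻¹ * x * c⁻¹⁻¹, hx'⟩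
      have hx1 : c⁻¹ * x * c⁻¹⁻¹ ∈ A (σ⁻¹ v) := hx'
      have hx2 : c * (c⁻¹ * x * c⁻¹⁻¹) * c⁻¹ ∈ A (σ (σ⁻¹ v)) := (h3 _).1 hx1
      have h5 : p (jj Λ A (σ⁻¹ v) ⟨c⁻¹ * x * c⁻¹⁻¹, hx1⟩) = jj Λ A (σ (σ⁻¹ v)) ⟨_, hx2⟩ :=
        h4 _ hx1 hx2
      have h6 : jj Λ A (σ (σ⁻¹ v)) ⟨c * (c⁻¹ * x * c⁻¹⁻¹) * c⁻¹, hx2⟩ = jj Λ A v ⟨x, hx⟩ :=
        jj_congr hv _ _ (by group)
      rw [← h6, ← h5]
      exact p.symm_apply_apply _

end ext

end Pool.Agent.D0H55.GW
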