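import Pool.Agent.D0H55.GW.Main

/-!
# Graph-wreath products
-/

set_option autoImplicit false

namespace Pool.Agent.D0H55.GW

open Monoid Pool.Agent.D0H25.GK
open Pool.Agent.Y110.FJ
open Pool.Agent.R941.FJ (C_equiv C_le C_cyc mem_sup_normal)
open Pool.Agent.Y462.SS (Closed)
open Pool.Agent.R684.FP (FbC cyc_real)

section

variable {C : ∀ (G : Type) [Group G], Prop}
variable {G V : Type} [Group G] {N : Subgroup G} {Λ : SimpleGraph V} {A : V → Subgroup G}

/-- inner actions of the stabilizers -/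
theorem facC_of_inner (hC : ClosedE C) [N.Normal] (h : IsGraphProd N Λ A) (H : Subgroup G)
    (hsup : N ⊔ H = ⊤) [MulAction H V]
    (hA : ∀ (k : H) (v : V) (x : G), x ∈ A v ↔ (k : G) * x * (k : G)⁻¹ ∈ A (k • v))
    (hst : ∀ (k : H) (v : V), k • v = v → ∃ u ∈ A v, ∀ x ∈ A v,
      (k : G) * x * (k : G)⁻¹ = u * x * u⁻¹)
    (hCA : ∀ v, C (A v)) : FacC C A Set.univ := by
  rintro v - g hg
  have hgt : g ∈ N ⊔ H := hsup ▸ Subgroup.mem_top g
  obtain ⟨a, ha, b, hb, rfl⟩ := mem_sup_normal.1 hgt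
  obtain ⟨k, hk⟩ : ∃ k : H, k = ⟨b, hb⟩ := ⟨_, rfl⟩
  have hkb : (k : G) = b := by rw [hk]
  have e1 : ∀ x, a * b * x * (a * b)⁻¹ = a * (b * x * b⁻¹) * a⁻¹ := fun x => by group
  by_cases hkv : k • v = v
  · obtain ⟨u, hu, hu2⟩ := hst k v hkv
    rw [hkb] at hu2
    obtain ⟨α, hα⟩ : ∃ α : G, α = (h.ret {v} ⟨a, ha⟩ : G) := ⟨_, rfl⟩
    have hαv : α ∈ A v := by
      have h3 := (h.ret {v} ⟨a, ha⟩).2
      rw [hα]
      exact (Pb_singleton A v).le h3
    have h2 : ∀ x ∈ A v, a * b * x * (a * b)⁻¹ = (α * u) * x * (α * u)⁻¹ := by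
      intro x hx
      have h3 : a * b * x * (a * b)⁻¹ ∈ A v := (hg x).1 hx
      have h4 : b * x * b⁻¹ ∈ A v := by
        have h5 := (hA k v x).1 hx
        rwa [hkb, hkv] at h5
      rw [e1] at h3 ⊢
      rw [h.ret_conj ha h4 h3, ← hα, hu2 x hx]
      group
    refine cyc_real hC (A v) (a * b) hg (MonoidHom.id (A v)) (fun x y hxy => hxy)
      ⟨α * u, (A v).mul_mem hαv hu⟩ ?_ (hCA v)
    intro x y hxy
    apply Subtype.ext
    show (y : G) = (α * u) * x * (α * u)⁻¹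
    rw [hxy, h2 x x.2]
  · have h2 : ∀ x ∈ A v, x = 1 := by
      intro x hx
      have h3 : a * b * x * (a * b)⁻¹ ∈ A v := (hg x).1 hx
      have h4 : b * x * b⁻¹ ∈ A (k • v) := by
        have h5 := (hA k v x).1 hx
        rwa [hkb] at h5
      rw [e1] at h3
      have h5 := h.ne_triv hkv ha h4 h3
      have h6 : x = b⁻¹ * (b * x * b⁻¹) * b := by group
      rw [h6, h5]
      simp
    have h3 : A v = ⊥ := by
      rw [eq_bot_iff]
      intro x hx
      rw [h2 x hx]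
      exact Subgroup.one_mem _
    rw [h3, bot_sup_eq]
    exact C_cyc hC.base _

/-- **graph-wreath products** -/
theorem gw_iff (hC : ClosedE C) (hF : FbC C) [N.Normal] (h : IsGraphProd N Λ A) (H : Subgroup G)
    (hsup : N ⊔ H = ⊤) (hinf : N ⊓ H = ⊥) [MulAction H V]
    (hΛ : ∀ (k : H) (v w : V), Λ.Adj v w → Λ.Adj (k • v) (k • w))
    (hA : ∀ (k : H) (v : V) (x : G), x ∈ A v ↔ (k : G) * x * (k : G)⁻¹ ∈ A (k • v))
    (hst : ∀ (k : H) (v : V), k • v = v → ∃ u ∈ A v, ∀ x ∈ A v,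
      (k : G) * x * (k : G)⁻¹ = u * x * u⁻¹) :
    C G ↔ C H ∧ ∀ v, C (A v) := by
  refine ⟨fun hG => ⟨hC.base.of_injective _ _ H.subtype H.subtype_injective hG,
    fun v => hC.base.of_injective _ _ (A v).subtype (A v).subtype_injective hG⟩, ?_⟩
  rintro ⟨hH, hCA⟩
  refine main_gw hC hF h ?_ (facC_of_inner hC h H hsup hA hst hCA) ?_
  · intro g
    have hgt : g ∈ N ⊔ H := hsup ▸ Subgroup.mem_top g
    obtain ⟨a, ha, b, hb, rfl⟩ := mem_sup_normal.1 hgt
    refine ⟨a⁻¹, N.inv_mem ha, MulAction.toPerm (⟨b, hb⟩ : H), ?_, ?_⟩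
    · intro v w
      refine ⟨fun h1 => ?_, hΛ _ v w⟩
      have h2 := hΛ (⟨b, hb⟩ : H)⁻¹ _ _ h1
      rwa [MulAction.toPerm_apply, MulAction.toPerm_apply, inv_smul_smul, inv_smul_smul] at h2
    · intro v x
      rw [inv_mul_cancel_left]
      exact hA ⟨b, hb⟩ v x
  · have hbij : Function.Bijective ((QuotientGroup.mk' N).comp H.subtype) := by
      constructor
      · rw [injective_iff_map_eq_one]
        intro x hx
        have h1 : (x : G) ∈ N := (QuotientGroup.eq_one_iff _).1 hx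
        have h2 : (x : G) ∈ N ⊓ H := ⟨h1, x.2⟩
        rw [hinf] at h2
        exact Subtype.ext h2
      · intro y
        obtain ⟨g, rfl⟩ := QuotientGroup.mk'_surjective _ y
        have hgt : g ∈ N ⊔ H := hsup ▸ Subgroup.mem_top g
        obtain ⟨a, ha, b, hb, rfl⟩ := mem_sup_normal.1 hgt
        refine ⟨⟨b, hb⟩, ?_⟩
        show QuotientGroup.mk' N b = QuotientGroup.mk' N (a * b)
        rw [map_mul]
        have : QuotientGroup.mk' N a = 1 := (QuotientGroup.eq_one_iff _).2 ha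
        rw [this, one_mul]
    exact C_equiv hC.base (MulEquiv.ofBijective _ hbij).symm hH

end

end Pool.Agent.D0H55.GW
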