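import Pool.Agent.D0H55.GW.Torus
import Pool.Agent.D0H55.GW.Cyc

/-!
# Extensions by graph products, the vertex groups being permuted
-/

set_option autoImplicit false

namespace Pool.Agent.D0H55.GW

open Monoid Pool.Agent.D0H25.GK
open Pool.Agent.Y110.FJ
open Pool.Agent.Y462.SS (Closed)
open Pool.Agent.R684.FP (FbC cyc_real)

section main

variable {C : ∀ (G : Type) [Group G], Prop}
variable {G V : Type} [Group G] {N : Subgroup G} {Λ : SimpleGraph V} {A : V → Subgroup G}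

/-- `q` permutes the vertex groups by `σ` -/
def Prm (A : V → Subgroup G) (q : G) (σ : Equiv.Perm V) : Prop :=
  ∀ v x, x ∈ A v ↔ q * x * q⁻¹ ∈ A (σ v)

theorem Prm.zpow {q : G} {σ : Equiv.Perm V} (h : Prm A q σ) (i : ℤ) : Prm A (q ^ i) (σ ^ i) := by
  induction i using Int.induction_on with
  | zero =>
    intro v x
    simp
  | succ i ih =>
    intro v x
    rw [h v x, ih (σ v)]
    have e : q ^ (i : ℤ) * (q * x * q⁻¹) * (q ^ (i : ℤ))⁻¹ =
        q ^ ((i : ℤ) + 1) * x * (q ^ ((i : ℤ) + 1))⁻¹ := by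
      rw [zpow_add, zpow_one]
      group
    rw [e, zpow_add_apply, zpow_one]
  | pred i ih =>
    intro v x
    have hinv : ∀ w y, y ∈ A w ↔ q⁻¹ * y * q ∈ A (σ.symm w) := by
      intro w y
      rw [h (σ.symm w), σ.apply_symm_apply]
      have : q * (q⁻¹ * y * q) * q⁻¹ = y := by group
      rw [this]
    rw [hinv v x, ih (σ.symm v)]
    have e : q ^ (-(i : ℤ)) * (q⁻¹ * x * q) * (q ^ (-(i : ℤ)))⁻¹ =
        q ^ (-(i : ℤ) - 1) * x * (q ^ (-(i : ℤ) - 1))⁻¹ := by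
      rw [zpow_sub, zpow_one]
      group
    have e2 : (σ ^ (-(i : ℤ) - 1)) v = (σ ^ (-(i : ℤ))) (σ.symm v) := by
      rw [sub_eq_add_neg, zpow_add_apply, zpow_neg_one]
      rfl
    rw [e, e2]

/-- the realization for an element which permutes the vertex groups -/
theorem realize (hC : ClosedE C) (hF : FbC C) (h : IsGraphProd N Λ A) (hB : FacC C A Set.univ)
    {q : G} {σ : Equiv.Perm V} (hσ : ∀ v w, Λ.Adj (σ v) (σ w) ↔ Λ.Adj v w) (hq : Prm A q σ)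
    {F : Set V} (hFf : F.Finite) :
    ∃ (P : Type) (_ : Group P) (f : Pb A (F ∪ σ '' F) →* P) (t : P), C P ∧ Function.Injective f ∧
      ∀ x (hx : x ∈ Pb A F) (hx1 : x ∈ Pb A (F ∪ σ '' F)) (hx2 : q * x * q⁻¹ ∈ Pb A (F ∪ σ '' F)),
        f ⟨q * x * q⁻¹, hx2⟩ = t * f ⟨x, hx1⟩ * t⁻¹ := by
  classical
  obtain ⟨F1, hF1⟩ : ∃ F1 : Set V, F1 = F ∪ σ '' F := ⟨_, rfl⟩
  have hF1f : F1.Finite := hF1 ▸ hFf.union (hFf.image _)
  have hFF1 : ∀ v ∈ F, v ∈ F1 := fun v hv => hF1 ▸ Or.inl hv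
  have hFF2 : ∀ v ∈ F, σ v ∈ F1 := fun v hv => hF1 ▸ Or.inr ⟨v, hv, rfl⟩
  rw [← hF1]
  obtain ⟨M, hM0, hM⟩ := exists_M σ hF1f
  have hMz : (0 : ℤ) < M := by exact_mod_cast hM0
  -- small multiples of `M` vanish
  have hsmall : ∀ k : ℤ, 2 * |(M : ℤ) * k| < M → k = 0 := by
    intro k hk
    by_contra hne
    have h1 : 1 ≤ |k| := Int.one_le_abs hne
    rw [abs_mul, abs_of_pos hMz] at hk
    nlinarith
  have hinj : ∀ v ∈ F1, ∀ w ∈ F1, pq σ M v = pq σ M w → v = w := by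
    intro v hv w hw hvw
    obtain ⟨k, hk⟩ := pq_eq.1 hvw
    rcases hM v hv w hw _ hk with h1 | h1
    · rw [hk, fix_mul h1]
    · rw [hk, hsmall k h1]
      simp
  obtain ⟨L, hL⟩ : ∃ L : SimpleGraph (Vq σ M), L = Lq σ M Λ F1 hinj := ⟨_, rfl⟩
  have hLadj : ∀ x y, L.Adj x y ↔ ∃ i : ℤ, ∃ v ∈ F1, ∃ w ∈ F1, Λ.Adj v w ∧
      x = pq σ M ((σ ^ i) v) ∧ y = pq σ M ((σ ^ i) w) := fun x y => by
    rw [hL]
    rfl
  have hLtau : ∀ x y, L.Adj (tq σ M x) (tq σ M y) ↔ L.Adj x y := by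
    have key : ∀ (a : ℤ) (x y : Vq σ M), L.Adj x y →
        L.Adj (((tq σ M) ^ a) x) (((tq σ M) ^ a) y) := by
      intro a x y hxy
      obtain ⟨i, v, hv, w, hw, h1, rfl, rfl⟩ := (hLadj x y).1 hxy
      rw [hLadj]
      refine ⟨a + i, v, hv, w, hw, h1, ?_, ?_⟩
      · rw [tq_zpow, zpow_add_apply]
      · rw [tq_zpow, zpow_add_apply]
    intro x y
    constructor
    · intro h1
      have h2 := key (-1) _ _ h1
      have h3 : ∀ z, ((tq σ M) ^ (-1 : ℤ)) (tq σ M z) = z := fun z => by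
        rw [zpow_neg_one]
        exact (tq σ M).symm_apply_apply z
      rw [h3, h3] at h2
      exact h2
    · intro h1
      have h2 := key 1 _ _ h1
      rw [zpow_one] at h2
      exact h2
  -- the graph on `F1` is an induced subgraph
  have hLind : ∀ v ∈ F1, ∀ w ∈ F1, L.Adj (pq σ M v) (pq σ M w) → Λ.Adj v w := by
    intro v hv w hw hvw
    obtain ⟨i, v1, hv1, w1, hw1, h1, h2, h3⟩ := (hLadj _ _).1 hvw
    obtain ⟨k, hk⟩ := pq_eq.1 h2.symm
    obtain ⟨l, hl⟩ := pq_eq.1 h3.symm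
    rw [← zpow_add_apply] at hk hl
    rcases hM v1 hv1 v hv _ hk with h4 | h4
    · have h5 : v = (σ ^ ((M : ℤ) * l + i)) v1 := by
        have h6 := fix_mul h4 (k - l)
        have h7 : (M : ℤ) * k + i = ((M : ℤ) * l + i) + (M : ℤ) * (k - l) := by ring
        rw [hk, h7, zpow_add_apply, h6]
      rw [h5, hl]
      exact (adj_zpow hσ _ _ _).2 h1
    · rcases hM w1 hw1 w hw _ hl with h5 | h5
      · have h8 : w = (σ ^ ((M : ℤ) * k + i)) w1 := by
          have h6 := fix_mul h5 (l - k)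
          have h7 : (M : ℤ) * l + i = ((M : ℤ) * k + i) + (M : ℤ) * (l - k) := by ring
          rw [hl, h7, zpow_add_apply, h6]
        rw [hk, h8]
        exact (adj_zpow hσ _ _ _).2 h1
      · have h6 : |(M : ℤ) * (k - l)| < M := by
          have e : (M : ℤ) * (k - l) = ((M : ℤ) * k + i) - ((M : ℤ) * l + i) := by ring
          have h7 := abs_sub ((M : ℤ) * k + i) ((M : ℤ) * l + i)
          rw [e]
          omega
        have h7 : k = l := by
          by_contra hne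
          have h8 : 1 ≤ |k - l| := Int.one_le_abs (sub_ne_zero.2 hne)
          rw [abs_mul, abs_of_pos hMz] at h6
          nlinarith
        rw [hk, hl, h7]
        exact (adj_zpow hσ _ _ _).2 h1
  -- representatives and exponents
  obtain ⟨ρ, hρ⟩ : ∃ ρ : Vq σ M → V, ∀ x, pq σ M (ρ x) = x :=
    ⟨Quotient.out, fun x => Quotient.out_eq x⟩
  have hex : ∀ v w : V, pq σ M v = pq σ M w →
      ∃ k : ℤ, w = (σ ^ ((M : ℤ) * k)) v ∧ (v = w → k = 0) := by
    intro v w hvw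
    by_cases h1 : v = w
    · exact ⟨0, by subst h1; simp, fun _ => rfl⟩
    · obtain ⟨k, hk⟩ := pq_eq.1 hvw
      exact ⟨k, hk, fun h2 => absurd h2 h1⟩
  choose! e he1 he2 using hex
  obtain ⟨A', hA'⟩ : ∃ A' : Vq σ M → Subgroup G, ∀ x, A' x = A (ρ x) := ⟨_, fun x => rfl⟩
  have hzq : ∀ i : ℤ, Prm A (q ^ i) (σ ^ i) := fun i => hq.zpow i
  obtain ⟨c, hc0⟩ : ∃ c : Vq σ M → G, ∀ x, c x =
    q ^ ((M : ℤ) * e (σ (ρ x)) (ρ (tq σ M x)) + 1) := ⟨_, fun x => rfl⟩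
  have hcr : ∀ x, ρ (tq σ M x) =
      (σ ^ ((M : ℤ) * e (σ (ρ x)) (ρ (tq σ M x)) + 1)) (ρ x) := by
    intro x
    rw [zpow_add_apply, zpow_one]
    refine he1 _ _ ?_
    rw [hρ, ← tq_pq, hρ]
  have hc : ∀ x y, y ∈ A' x ↔ c x * y * (c x)⁻¹ ∈ A' (tq σ M x) := by
    intro x y
    rw [hA', hA', hc0]
    have h1 := hzq ((M : ℤ) * e (σ (ρ x)) (ρ (tq σ M x)) + 1) (ρ x) y
    rw [← hcr x] at h1
    exact h1
  obtain ⟨θ, hθ⟩ := exists_aut (Λ := L) (A := A') (tq σ M) hLtau c hc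
  have hact : (θ, tq σ M) ∈ Cact L A' := fun x => ⟨c x, hc x, fun y hy _ => hθ x ⟨y, hy⟩⟩
  have hB' : FacC C A' Set.univ := by
    intro x _ g hg
    rw [hA'] at hg ⊢
    exact hB (ρ x) (Set.mem_univ _) g hg
  have hP : C (PT θ) := torus_mem hC hF hLtau hact hM0 (tq_M σ M) hB'
  obtain ⟨d, hd0⟩ : ∃ d : V → G, ∀ v, d v = q ^ ((M : ℤ) * e v (ρ (pq σ M v))) :=
    ⟨_, fun x => rfl⟩
  have hdr : ∀ v, ρ (pq σ M v) = (σ ^ ((M : ℤ) * e v (ρ (pq σ M v)))) v := by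
    intro v
    refine he1 _ _ ?_
    rw [hρ]
  have hd : ∀ v x, x ∈ A v ↔ d v * x * (d v)⁻¹ ∈ A' (pq σ M v) := by
    intro v x
    rw [hA', hd0]
    have h1 := hzq ((M : ℤ) * e v (ρ (pq σ M v))) v x
    rw [← hdr v] at h1
    exact h1
  -- the embedding
  have hsub := h.sub F1
  obtain ⟨f0, hf0⟩ := hsub.exists_hom (H := EG L A')
    (fun v => (jj L A' (pq σ M v)).comp
      { toFun := fun a => ⟨d v * a * (d v)⁻¹, (hd v a).1 a.2⟩
        map_one' := Subtype.ext (by simp)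
        map_mul' := fun a b => Subtype.ext (by
          show d v * ((a : G) * b) * (d v)⁻¹ = (d v * a * (d v)⁻¹) * (d v * b * (d v)⁻¹)
          group) }) (by
      intro v w hvw a b
      refine jj_comm ?_ _ _
      rw [hLadj]
      exact ⟨0, v, v.2, w, w.2, hvw, by simp, by simp⟩)
  have hf0' : ∀ (v : V) (_ : v ∈ F1) (a : G) (ha : a ∈ A v) (ha' : a ∈ Pb A F1),
      f0 ⟨a, ha'⟩ = jj L A' (pq σ M v) ⟨d v * a * (d v)⁻¹, (hd v a).1 ha⟩ :=
    fun v hv a ha ha' => hf0 ⟨v, hv⟩ a ha ha'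
  obtain ⟨g0, hg0⟩ := exists_lift (Λ := L) (A := A') (H := G)
    (fun x => if hx : ∃ v ∈ F1, pq σ M v = x then
      (MulAut.conj (d hx.choose)⁻¹).toMonoidHom.comp (A' x).subtype else 1) (by
      intro x y hxy a b
      by_cases hx : ∃ v ∈ F1, pq σ M v = x
      · by_cases hy : ∃ v ∈ F1, pq σ M v = y
        · rw [dif_pos hx, dif_pos hy]
          obtain ⟨v, hv⟩ : ∃ v, v = hx.choose := ⟨_, rfl⟩
          obtain ⟨w, hw⟩ : ∃ w, w = hy.choose := ⟨_, rfl⟩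
          have hv1 : v ∈ F1 := hv ▸ hx.choose_spec.1
          have hv2 : pq σ M v = x := hv ▸ hx.choose_spec.2
          have hw1 : w ∈ F1 := hw ▸ hy.choose_spec.1
          have hw2 : pq σ M w = y := hw ▸ hy.choose_spec.2
          rw [← hv, ← hw]
          have h1 : Λ.Adj v w := hLind v hv1 w hw1 (by rw [hv2, hw2]; exact hxy)
          have h2 : (d v)⁻¹ * (a : G) * d v ∈ A v := by
            rw [hd, hv2]
            have : d v * ((d v)⁻¹ * (a : G) * d v) * (d v)⁻¹ = a := by group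
            rw [this]
            exact a.2
          have h3 : (d w)⁻¹ * (b : G) * d w ∈ A w := by
            rw [hd, hw2]
            have : d w * ((d w)⁻¹ * (b : G) * d w) * (d w)⁻¹ = b := by group
            rw [this]
            exact b.2
          show (d v)⁻¹ * (a : G) * (d v)⁻¹⁻¹ * ((d w)⁻¹ * (b : G) * (d w)⁻¹⁻¹) =
            (d w)⁻¹ * (b : G) * (d w)⁻¹⁻¹ * ((d v)⁻¹ * (a : G) * (d v)⁻¹⁻¹)
          rw [inv_inv, inv_inv]
          exact h.comm h1 h2 h3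
        · rw [dif_neg hy, MonoidHom.one_apply, one_mul, mul_one]
      · rw [dif_neg hx, MonoidHom.one_apply, one_mul, mul_one])
  have hgf : g0.comp f0 = (Pb A F1).subtype := by
    refine sup_hom_ext (B := fun w : F1 => A w) rfl _ _ ?_
    rintro ⟨v, hv⟩ x hx hx'
    show g0 (f0 ⟨x, hx'⟩) = x
    rw [hf0' v hv x hx hx', hg0]
    have hxx : ∃ w ∈ F1, pq σ M w = pq σ M v := ⟨v, hv, rfl⟩
    rw [dif_pos hxx]
    have h1 : hxx.choose = v := hinj _ hxx.choose_spec.1 _ hv hxx.choose_spec.2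
    rw [h1]
    show (d v)⁻¹ * (d v * x * (d v)⁻¹) * (d v)⁻¹⁻¹ = x
    group
  have hf0inj : Function.Injective f0 := by
    intro x y hxy
    have h1 := DFunLike.congr_fun hgf x
    have h2 := DFunLike.congr_fun hgf y
    rw [MonoidHom.comp_apply] at h1 h2
    apply Subtype.ext
    show (Pb A F1).subtype x = (Pb A F1).subtype y
    rw [← h1, ← h2, hxy]
  refine ⟨PT θ, inferInstance, (iE θ).comp f0, SemidirectProduct.inr (Multiplicative.ofAdd 1), hP,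
    (iE_inj θ).comp hf0inj, ?_⟩
  intro x hx hx1 hx2
  have hcj : ∀ y : EG L A', SemidirectProduct.inr (Multiplicative.ofAdd 1) * iE θ y *
      (SemidirectProduct.inr (Multiplicative.ofAdd 1))⁻¹ = iE θ (θ y) := by
    intro y
    rw [conj_iE]
    simp
  rw [MonoidHom.comp_apply, MonoidHom.comp_apply, hcj]
  congr 1
  have hle : Pb A F ≤ (Pb A F1).comap (MulAut.conj q).toMonoidHom := by
    refine iSup_le ?_
    rintro ⟨v, hv⟩ y hy
    exact (le_Pb (hFF2 v hv)) ((hq v y).1 hy)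
  have hle' : Pb A F ≤ Pb A F1 := Pb_mono hFF1
  let k1 : Pb A F →* EG L A' := f0.comp
    (((MulAut.conj q).toMonoidHom.comp (Pb A F).subtype).codRestrict (Pb A F1)
      (fun y => hle y.2))
  let k2 : Pb A F →* EG L A' := θ.toMonoidHom.comp (f0.comp (Subgroup.inclusion hle'))
  have hk : k1 = k2 := by
    refine sup_hom_ext (B := fun w : F => A w) rfl _ _ ?_
    rintro ⟨v, hv⟩ y hy hy'
    have hy1 : q * y * q⁻¹ ∈ A (σ v) := (hq v y).1 hy
    show f0 ⟨q * y * q⁻¹, hle hy'⟩ = θ (f0 ⟨y, hle' hy'⟩)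
    rw [hf0' (σ v) (hFF2 v hv) _ hy1, hf0' v (hFF1 v hv) y hy, hθ]
    refine jj_congr rfl _ _ ?_
    show d (σ v) * (q * y * q⁻¹) * (d (σ v))⁻¹ =
      c (pq σ M v) * (d v * y * (d v)⁻¹) * (c (pq σ M v))⁻¹
    have hexp : d (σ v) * q = c (pq σ M v) * d v := by
      rw [hd0, hd0, hc0, ← zpow_add_one, ← zpow_add]
      congr 1
      obtain ⟨r, hr⟩ : ∃ r, r = ρ (pq σ M v) := ⟨_, rfl⟩
      obtain ⟨r', hr'⟩ : ∃ r', r' = ρ (pq σ M (σ v)) := ⟨_, rfl⟩
      rw [tq_pq, ← hr, ← hr']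
      have h1 : r = (σ ^ ((M : ℤ) * e v r)) v := by
        have := hdr v
        rw [← hr] at this
        exact this
      have h2 : r' = (σ ^ ((M : ℤ) * e (σ r) r')) (σ r) := by
        refine he1 _ _ ?_
        rw [hr', hρ, ← tq_pq, ← tq_pq, hr, hρ]
      have h3 : r' = (σ ^ ((M : ℤ) * e (σ v) r')) (σ v) := by
        refine he1 _ _ ?_
        rw [hr', hρ]
      have h4 : (σ ^ ((M : ℤ) * (e v r + e (σ r) r' - e (σ v) r'))) v = v := by
        have h5 : (σ ^ ((M : ℤ) * e (σ v) r' + 1)) ((σ ^ ((M : ℤ) *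
            (e v r + e (σ r) r' - e (σ v) r'))) v) = (σ ^ ((M : ℤ) * e (σ v) r' + 1)) v := by
          rw [← zpow_add_apply]
          have e1 : (M : ℤ) * e (σ v) r' + 1 + (M : ℤ) * (e v r + e (σ r) r' - e (σ v) r') =
              (M : ℤ) * e (σ r) r' + (1 + (M : ℤ) * e v r) := by ring
          rw [e1, zpow_add_apply, zpow_add_apply, zpow_one, ← h1, ← h2, zpow_add_apply, zpow_one,
            ← h3]
        exact (σ ^ ((M : ℤ) * e (σ v) r' + 1)).injective h5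
      rcases hM v (hFF1 v hv) v (hFF1 v hv) _ h4.symm with h5 | h5
      · have h6 : v = r := by
          rw [h1, fix_mul h5]
        have h7 : σ v = r' := by
          rw [h3]
          have h8 : (σ ^ (M : ℤ)) (σ v) = σ v := by
            have h9 := zpow_add_apply σ (M : ℤ) 1 v
            have h10 := zpow_add_apply σ 1 (M : ℤ) v
            rw [zpow_one] at h9 h10
            rw [← h9, add_comm, h10, h5]
          rw [fix_mul h8]
        have h8 : e v r = 0 := he2 v r (by rw [hr, hρ]) h6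
        have h9 : e (σ v) r' = 0 := he2 _ _ (by rw [hr', hρ]) h7
        rw [← h6] at h8 ⊢
        rw [h8, h9]
        ring
      · have h6 := hsmall _ h5
        have h7 : e (σ v) r' = e v r + e (σ r) r' := by linarith
        rw [h7]
        ring
    calc d (σ v) * (q * y * q⁻¹) * (d (σ v))⁻¹ = (d (σ v) * q) * y * (d (σ v) * q)⁻¹ := by group
      _ = (c (pq σ M v) * d v) * y * (c (pq σ M v) * d v)⁻¹ := by rw [hexp]
      _ = _ := by group
  exact DFunLike.congr_fun hk ⟨x, hx⟩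

/-- **extensions by graph products whose vertex groups are permuted** -/
theorem main_gw (hC : ClosedE C) (hF : FbC C) [N.Normal] (h : IsGraphProd N Λ A)
    (hperm : ∀ g : G, ∃ n ∈ N, ∃ σ : Equiv.Perm V, (∀ v w, Λ.Adj (σ v) (σ w) ↔ Λ.Adj v w) ∧
      ∀ v x, x ∈ A v ↔ (n * g) * x * (n * g)⁻¹ ∈ A (σ v))
    (hB : FacC C A Set.univ) (hQ : C (G ⧸ N)) : C G := by
  refine Pool.Agent.R779.FJ.t_crit Pool.Agent.Y529.FJ.t_ext
    (Pool.Agent.Y961.FJ.t_perm Pool.Agent.Y529.FJ.t_ext) C hC G N hQ ?_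
  intro g E hE hEN
  obtain ⟨n, hn, σ, hσ, hq⟩ := hperm g
  obtain ⟨q, hqd⟩ : ∃ q : G, q = n * g := ⟨_, rfl⟩
  rw [← hqd] at hq
  obtain ⟨F, hFf, hEF⟩ := exists_fin_set h.sup (hE.union (Set.finite_singleton n))
    (Set.union_subset hEN (Set.singleton_subset_iff.2 hn))
  obtain ⟨P, hPg, f, t, hP, hf, hft⟩ := realize hC hF h hB hσ hq hFf
  have hmono : F ⊆ F ∪ σ '' F := Set.subset_union_left
  have hnF : n ∈ Pb A (F ∪ σ '' F) := Pb_mono hmono (hEF (Or.inr rfl))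
  have hEF' : ∀ x ∈ E, x ∈ Pb A F := fun x hx => hEF (Or.inl hx)
  have hle : Pb A F ≤ (Pb A (F ∪ σ '' F)).comap (MulAut.conj q).toMonoidHom := by
    refine iSup_le ?_
    rintro ⟨v, hv⟩ y hy
    have hm : σ v ∈ F ∪ σ '' F := Or.inr ⟨v, hv, rfl⟩
    exact (le_Pb hm) ((hq v y).1 hy)
  have hqx : ∀ x ∈ E, q * x * q⁻¹ ∈ Pb A (F ∪ σ '' F) := fun x hx => hle (hEF' x hx)
  have hgx : ∀ x ∈ E, g * x * g⁻¹ ∈ Pb A (F ∪ σ '' F) := by
    intro x hx
    have e1 : g * x * g⁻¹ = n⁻¹ * (q * x * q⁻¹) * n := by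
      rw [hqd]
      group
    rw [e1]
    exact Subgroup.mul_mem _ (Subgroup.mul_mem _ (Subgroup.inv_mem _ hnF) (hqx x hx)) hnF
  have hcl : Subgroup.closure (E ∪ (fun x => g * x * g⁻¹) '' E) ≤ Pb A (F ∪ σ '' F) := by
    rw [Subgroup.closure_le]
    rintro x (hx | ⟨y, hy, rfl⟩)
    · exact Pb_mono hmono (hEF' x hx)
    · exact hgx y hy
  refine ⟨P, hPg, f.comp (Subgroup.inclusion hcl), (f ⟨n, hnF⟩)⁻¹ * t, hP,
    hf.comp (Subgroup.inclusion_injective hcl), ?_⟩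
  rintro ⟨x, hx⟩ ⟨y, hy⟩ hxE hxy
  have hxE' : x ∈ E := hxE
  have hxy' : y = g * x * g⁻¹ := hxy
  show f ⟨y, hcl hy⟩ = (f ⟨n, hnF⟩)⁻¹ * t * f ⟨x, hcl hx⟩ * ((f ⟨n, hnF⟩)⁻¹ * t)⁻¹
  have h1 := hft x (hEF' x hxE') (hcl hx) (hqx x hxE')
  have h2 : (⟨y, hcl hy⟩ : Pb A (F ∪ σ '' F)) = ⟨n, hnF⟩⁻¹ * ⟨q * x * q⁻¹, hqx x hxE'⟩ *
      ⟨n, hnF⟩ := by
    apply Subtype.ext
    show y = n⁻¹ * (q * x * q⁻¹) * n
    rw [hxy', hqd]
    group
  rw [h2, map_mul, map_mul, map_inv, h1]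
  group

end main

end Pool.Agent.D0H55.GW
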