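import Pool.Agent.D0H55.GW.Ext

/-!
# Mapping tori of graph products for automorphisms which permute the vertex groups
-/

set_option autoImplicit false

namespace Pool.Agent.D0H55.GW

open Monoid Pool.Agent.D0H25.GK
open Pool.Agent.Y110.FJ
open Pool.Agent.R941.FJ (C_equiv C_le C_cyc mem_sup_normal)
open Pool.Agent.Y462.SS (Closed)
open Pool.Agent.R684.FP (FbC cyc_real)

section torus

variable {G V : Type} [Group G] {Λ : SimpleGraph V} {A : V → Subgroup G}

/-- the mapping torus -/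
abbrev PT (θ : MulAut (EG Λ A)) : Type :=
  EG Λ A ⋊[zpowersHom (MulAut (EG Λ A)) θ] Multiplicative ℤ

/-- the graph product in the mapping torus -/
abbrev iE (θ : MulAut (EG Λ A)) : EG Λ A →* PT θ := SemidirectProduct.inl

theorem iE_inj (θ : MulAut (EG Λ A)) : Function.Injective (iE θ) := SemidirectProduct.inl_injective

/-- the vertex groups in the mapping torus -/
def iB (θ : MulAut (EG Λ A)) (v : V) : A v →* PT θ := (iE θ).comp (jj Λ A v)

theorem iB_apply (θ : MulAut (EG Λ A)) (v : V) (a : A v) : iB θ v a = iE θ (jj Λ A v a) := rfl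

theorem iB_inj (θ : MulAut (EG Λ A)) (v : V) : Function.Injective (iB θ v) :=
  (iE_inj θ).comp (jj_inj v)

/-- the vertex groups in the mapping torus -/
def BB (θ : MulAut (EG Λ A)) (v : V) : Subgroup (PT θ) := (iB θ v).range

/-- the graph product in the mapping torus -/
def NN (θ : MulAut (EG Λ A)) : Subgroup (PT θ) := (iE θ).range

instance (θ : MulAut (EG Λ A)) : (NN θ).Normal := by
  unfold NN
  rw [SemidirectProduct.range_inl_eq_ker_rightHom]
  infer_instance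

theorem conj_iE (θ : MulAut (EG Λ A)) (p : PT θ) (y : EG Λ A) :
    p * iE θ y * p⁻¹ = iE θ (p.left * (θ ^ (Multiplicative.toAdd p.right)) y * p.left⁻¹) := by
  have h1 : p = iE θ p.left * SemidirectProduct.inr p.right :=
    (SemidirectProduct.inl_left_mul_inr_right p).symm
  have h2 : iE θ ((θ ^ (Multiplicative.toAdd p.right)) y) =
      SemidirectProduct.inr p.right * iE θ y * (SemidirectProduct.inr p.right)⁻¹ := by
    have h3 := SemidirectProduct.inl_aut (φ := zpowersHom (MulAut (EG Λ A)) θ) p.right y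
    rw [zpowersHom_apply] at h3
    rw [← map_inv]
    exact h3
  rw [map_mul, map_mul, h2, map_inv]
  conv_lhs => rw [h1]
  group

theorem isGraphProd (θ : MulAut (EG Λ A)) : IsGraphProd (NN θ) Λ (BB θ) := by
  refine of_univ ?_ ?_ ?_
  · apply le_antisymm
    · refine iSup_le fun v => ?_
      rintro _ ⟨a, rfl⟩
      exact ⟨_, rfl⟩
    · rintro _ ⟨x, rfl⟩
      obtain ⟨y, rfl⟩ := QuotientGroup.mk_surjective x
      induction y using CoprodI.induction_on with
      | one =>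
        rw [QuotientGroup.mk_one, map_one]
        exact Subgroup.one_mem _
      | of v a =>
        exact (le_iSup (BB θ) v) ⟨a, rfl⟩
      | mul x y hx hy =>
        rw [QuotientGroup.mk_mul, map_mul]
        exact Subgroup.mul_mem _ hx hy
  · rintro v w hvw _ ⟨a, rfl⟩ _ ⟨b, rfl⟩
    rw [iB_apply, iB_apply, ← map_mul, jj_comm hvw a b, map_mul]
  · intro H _ φ hφ
    obtain ⟨Φ, hΦ⟩ := exists_lift (Λ := Λ) (A := A) (H := H)
      (fun v => (φ v).comp (iB θ v).rangeRestrict) (fun v w hvw a b => hφ v w hvw _ _)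
    refine ⟨Φ.comp (MonoidHom.ofInjective (iE_inj θ)).symm.toMonoidHom, ?_⟩
    rintro v a ⟨x, rfl⟩ ha'
    show Φ ((MonoidHom.ofInjective (iE_inj θ)).symm ⟨iB θ v x, ha'⟩) = _
    have h1 : (MonoidHom.ofInjective (iE_inj θ)).symm ⟨iB θ v x, ha'⟩ = jj Λ A v x := by
      rw [MulEquiv.symm_apply_eq]
      rfl
    rw [h1, hΦ]
    rfl

theorem adj_zpow {τ : Equiv.Perm V} (hτ : ∀ v w, Λ.Adj (τ v) (τ w) ↔ Λ.Adj v w) (i : ℤ) (v w : V) :
    Λ.Adj ((τ ^ i) v) ((τ ^ i) w) ↔ Λ.Adj v w := by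
  induction i using Int.induction_on generalizing v w with
  | zero => simp
  | succ i ih =>
    rw [add_comm, zpow_add, zpow_one, Equiv.Perm.mul_apply, Equiv.Perm.mul_apply, hτ, ih]
  | pred i ih =>
    rw [← ih v w, ← hτ ((τ ^ (-(i : ℤ) - 1)) v), ← Equiv.Perm.mul_apply, ← Equiv.Perm.mul_apply,
      ← zpow_one_add]
    have : (1 : ℤ) + (-(i : ℤ) - 1) = -(i : ℤ) := by ring
    rw [this]

variable {C : ∀ (G : Type) [Group G], Prop}

/-- the extensions of the vertex groups -/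
theorem facC_BB (hC : ClosedE C) {τ : Equiv.Perm V} {θ : MulAut (EG Λ A)}
    (hθ : (θ, τ) ∈ Cact Λ A) (hB : FacC C A Set.univ) : FacC C (BB θ) Set.univ := by
  rintro v - p hp
  have hk : (θ ^ (Multiplicative.toAdd p.right), τ ^ (Multiplicative.toAdd p.right)) ∈ Cact Λ A :=
    (Cact Λ A).zpow_mem hθ _
  obtain ⟨w, hw⟩ : ∃ w, w = (τ ^ (Multiplicative.toAdd p.right)) v := ⟨_, rfl⟩
  obtain ⟨c, hc1, hc2⟩ := hk v
  change ∀ x, x ∈ A v ↔ c * x * c⁻¹ ∈ A ((τ ^ (Multiplicative.toAdd p.right)) v) at hc1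
  change ∀ (x : G) (hx : x ∈ A v) (hx' : c * x * c⁻¹ ∈ A ((τ ^ (Multiplicative.toAdd p.right)) v)),
      (θ ^ (Multiplicative.toAdd p.right)) (jj Λ A v ⟨x, hx⟩) =
        jj Λ A ((τ ^ (Multiplicative.toAdd p.right)) v) ⟨c * x * c⁻¹, hx'⟩ at hc2
  rw [← hw] at hc1 hc2
  -- the conjugation by `p`
  have h1 : ∀ x : A v, p * iB θ v x * p⁻¹ =
      iE θ p.left * iB θ w ⟨c * x * c⁻¹, (hc1 x).1 x.2⟩ * (iE θ p.left)⁻¹ := by
    intro x
    rw [iB_apply, conj_iE, hc2 x x.2 ((hc1 x).1 x.2), map_mul, map_mul, map_inv]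
    rfl
  have hG := isGraphProd θ
  have hl : iE θ p.left ∈ NN θ := ⟨_, rfl⟩
  by_cases hwv : w = v
  · subst hwv
    obtain ⟨α0, hα0⟩ : ∃ α0 : A w, iB θ w α0 = (hG.ret {w} ⟨iE θ p.left, hl⟩ : PT θ) := by
      have h2 : (hG.ret {w} ⟨iE θ p.left, hl⟩ : PT θ) ∈ BB θ w := by
        have h3 := (hG.ret {w} ⟨iE θ p.left, hl⟩).2
        exact (Pb_singleton (BB θ) w).le h3
      exact h2
    have h2 : ∀ x : A w, p * iB θ w x * p⁻¹ =
        iB θ w (α0 * ⟨c * x * c⁻¹, (hc1 x).1 x.2⟩ * α0⁻¹) := by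
      intro x
      have h3 : iB θ w ⟨c * x * c⁻¹, (hc1 x).1 x.2⟩ ∈ BB θ w := ⟨_, rfl⟩
      have h4 : p * iB θ w x * p⁻¹ ∈ BB θ w := (hp _).1 ⟨_, rfl⟩
      rw [h1] at h4 ⊢
      rw [hG.ret_conj hl h3 h4, ← hα0, map_mul, map_mul, map_inv]
    obtain ⟨u, hu⟩ : ∃ u : G, u = (α0 : G) * c := ⟨_, rfl⟩
    have h3 : ∀ x, x ∈ A w ↔ u * x * u⁻¹ ∈ A w := by
      intro x
      rw [hc1 x]
      have h4 : u * x * u⁻¹ = (α0 : G) * (c * x * c⁻¹) * (α0 : G)⁻¹ := by
        rw [hu]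
        group
      rw [h4]
      constructor
      · intro h5
        exact (A w).mul_mem ((A w).mul_mem α0.2 h5) ((A w).inv_mem α0.2)
      · intro h5
        have h6 := (A w).mul_mem ((A w).mul_mem ((A w).inv_mem α0.2) h5) α0.2
        have h7 : (α0 : G)⁻¹ * ((α0 : G) * (c * x * c⁻¹) * (α0 : G)⁻¹) * α0 = c * x * c⁻¹ := by
          group
        rwa [h7] at h6
    have h4 := hB w (Set.mem_univ w) u h3
    refine cyc_real hC (BB θ w) p hp ((Subgroup.inclusion (le_sup_left :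
      A w ≤ A w ⊔ Subgroup.zpowers u)).comp
        (MonoidHom.ofInjective (iB_inj θ w)).symm.toMonoidHom) ?_
      ⟨u, Subgroup.mem_sup_right (Subgroup.mem_zpowers _)⟩ ?_ h4
    · exact (Subgroup.inclusion_injective (le_sup_left :
        A w ≤ A w ⊔ Subgroup.zpowers u)).comp (MonoidHom.ofInjective (iB_inj θ w)).symm.injective
    · rintro ⟨_, x, rfl⟩ ⟨_, y, rfl⟩ hxy
      apply Subtype.ext
      show ((MonoidHom.ofInjective (iB_inj θ w)).symm ⟨iB θ w y, _⟩ : G) =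
        u * ((MonoidHom.ofInjective (iB_inj θ w)).symm ⟨iB θ w x, _⟩ : G) * u⁻¹
      have h5 : ∀ z : A w, ∀ hz : iB θ w z ∈ (iB θ w).range,
          (MonoidHom.ofInjective (iB_inj θ w)).symm ⟨iB θ w z, hz⟩ = z := by
        intro z hz
        rw [MulEquiv.symm_apply_eq]
        rfl
      rw [h5, h5]
      have h6 : iB θ w y = p * iB θ w x * p⁻¹ := hxy
      rw [h2] at h6
      rw [iB_inj θ w h6, hu]
      show (α0 : G) * (c * x * c⁻¹) * (α0 : G)⁻¹ = _
      group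
  · -- the factor is trivial
    have h2 : ∀ x : A v, x = 1 := by
      intro x
      have h4 : p * iB θ v x * p⁻¹ ∈ BB θ v := (hp _).1 ⟨_, rfl⟩
      rw [h1] at h4
      have h5 := hG.ne_triv hwv hl ⟨_, rfl⟩ h4
      have h6 : (⟨c * x * c⁻¹, (hc1 x).1 x.2⟩ : A w) = 1 := iB_inj θ w (by rw [h5, map_one])
      have h7 : c * (x : G) * c⁻¹ = 1 := congrArg Subtype.val h6
      apply Subtype.ext
      have h8 : (x : G) = c⁻¹ * (c * x * c⁻¹) * c := by group
      rw [h8, h7]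
      simp
    have h3 : BB θ v = ⊥ := by
      rw [eq_bot_iff]
      rintro _ ⟨x, rfl⟩
      rw [h2 x, map_one]
      exact Subgroup.one_mem _
    show C ↥(BB θ v ⊔ Subgroup.zpowers p)
    rw [h3, bot_sup_eq]
    exact C_cyc hC.base _

/-- **the mapping tori are in the class** -/
theorem torus_mem (hC : ClosedE C) (hF : FbC C) {τ : Equiv.Perm V}
    (hτ : ∀ v w, Λ.Adj (τ v) (τ w) ↔ Λ.Adj v w) {θ : MulAut (EG Λ A)}
    (hθ : (θ, τ) ∈ Cact Λ A) {M : ℕ} (hM : 0 < M) (hτM : τ ^ M = 1)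
    (hB : FacC C A Set.univ) : C (PT θ) := by
  let ψ : PT θ →* Equiv.Perm V := (zpowersHom (Equiv.Perm V) τ).comp SemidirectProduct.rightHom
  have hψ : ∀ p : PT θ, ψ p = τ ^ (Multiplicative.toAdd p.right) := fun p => rfl
  let _ : MulAction (PT θ) V := MulAction.compHom V ψ
  have hsm : ∀ (p : PT θ) (v : V), p • v = (τ ^ (Multiplicative.toAdd p.right)) v := fun p v => rfl
  have hsm' : ∀ (p : PT θ) (v : V), p • v = ψ p v := fun p v => rfl
  refine main hC hF (isGraphProd θ) ?_ ?_ ?_ (facC_BB hC hθ hB) ?_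
  · intro p v w hvw
    rw [hsm, hsm]
    exact (adj_zpow hτ _ v w).2 hvw
  · intro p v
    have hk : (θ ^ (Multiplicative.toAdd p.right), τ ^ (Multiplicative.toAdd p.right)) ∈ Cact Λ A :=
      (Cact Λ A).zpow_mem hθ _
    obtain ⟨c, hc1, hc2⟩ := hk v
    change ∀ x, x ∈ A v ↔ c * x * c⁻¹ ∈ A ((τ ^ (Multiplicative.toAdd p.right)) v) at hc1
    change ∀ (x : G) (hx : x ∈ A v)
      (hx' : c * x * c⁻¹ ∈ A ((τ ^ (Multiplicative.toAdd p.right)) v)),
      (θ ^ (Multiplicative.toAdd p.right)) (jj Λ A v ⟨x, hx⟩) =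
        jj Λ A ((τ ^ (Multiplicative.toAdd p.right)) v) ⟨c * x * c⁻¹, hx'⟩ at hc2
    have h1 : ∀ x : A v, (iE θ p.left)⁻¹ * (p * iB θ v x * p⁻¹) * (iE θ p.left)⁻¹⁻¹ =
        iB θ ((τ ^ (Multiplicative.toAdd p.right)) v) ⟨c * x * c⁻¹, (hc1 x).1 x.2⟩ := by
      intro x
      rw [iB_apply, conj_iE, hc2 x x.2 ((hc1 x).1 x.2), map_mul, map_mul, map_inv, iB_apply]
      group
    refine ⟨(iE θ p.left)⁻¹, (NN θ).inv_mem ⟨_, rfl⟩, ?_⟩
    intro x
    rw [hsm]
    constructor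
    · rintro ⟨a, rfl⟩
      rw [h1]
      exact ⟨_, rfl⟩
    · rintro ⟨b, hb⟩
      have h2 : c⁻¹ * (b : G) * c ∈ A v := by
        rw [hc1]
        have : c * (c⁻¹ * (b : G) * c) * c⁻¹ = b := by group
        rw [this]
        exact b.2
      have h3 := h1 ⟨c⁻¹ * b * c, h2⟩
      have h4 : (⟨c * (c⁻¹ * (b : G) * c) * c⁻¹, (hc1 _).1 h2⟩ :
          A ((τ ^ (Multiplicative.toAdd p.right)) v)) = b := by
        apply Subtype.ext
        show c * (c⁻¹ * (b : G) * c) * c⁻¹ = b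
        group
      change (iE θ p.left)⁻¹ * (p * iB θ v ⟨c⁻¹ * b * c, h2⟩ * p⁻¹) * (iE θ p.left)⁻¹⁻¹ =
        iB θ ((τ ^ (Multiplicative.toAdd p.right)) v)
          ⟨c * (c⁻¹ * (b : G) * c) * c⁻¹, (hc1 _).1 h2⟩ at h3
      rw [h4, hb] at h3
      have h5 := mul_left_cancel (mul_right_cancel h3)
      have h6 := mul_left_cancel (mul_right_cancel h5)
      exact ⟨_, h6⟩
  · intro p v
    refine ⟨M, hM, fun i h => ?_⟩
    rw [hsm'] at h
    have h1 : ψ (p ^ ((M : ℤ) * i)) = 1 := by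
      rw [map_zpow, hψ, ← zpow_mul]
      have h2 : Multiplicative.toAdd p.right * ((M : ℤ) * i) =
          (M : ℤ) * (Multiplicative.toAdd p.right * i) := by ring
      rw [h2, zpow_mul, zpow_natCast, hτM, one_zpow]
    rw [h1] at h
    exact Λ.irrefl h
  · let f : (PT θ ⧸ NN θ) →* Multiplicative ℤ := QuotientGroup.lift (NN θ)
      (SemidirectProduct.rightHom) (by
        rintro _ ⟨x, rfl⟩
        rfl)
    refine hC.base.of_injective _ _ f ?_ hC.base.int
    rw [injective_iff_map_eq_one]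
    intro x hx
    obtain ⟨y, rfl⟩ := QuotientGroup.mk_surjective x
    have h1 : y ∈ (SemidirectProduct.rightHom : PT θ →* Multiplicative ℤ).ker := hx
    rw [← SemidirectProduct.range_inl_eq_ker_rightHom] at h1
    exact (QuotientGroup.eq_one_iff _).2 h1

end torus

end Pool.Agent.D0H55.GW
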